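import Pool.Agent.H8.VX.Fin
import Pool.Agent.H99.VY.Medy
import Pool.Agent.H99.VY.Smy

/-! # [H8 VZ MAIN] THEOREM VZ: `|F(x,y)| ≤ H` has at most `B^(3000 n^4) (S^(1-1/(36n²)) + H^(2/n) (1 + log H))` integer solutions -/

namespace Pool.Agent.H8.VZ

open MvPolynomial Pool.Agent.H8.AA Pool.Agent.H8.VX

theorem sixteen (n : ℕ) (hn : 4 ≤ n) : n ^ 4 = n ^ 2 * n ^ 2 ∧ 16 ≤ n ^ 2 := by
  refine ⟨by ring, ?_⟩
  nlinarith

theorem e360 (n B : ℕ) (hB : 2 ≤ B) : 360 * (n : ℝ) ^ 4 ≤ (B : ℝ) ^ (9 + 4 * n) := by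
  have h1 : n ≤ 2 ^ n := (Nat.lt_two_pow_self (n := n)).le
  have h2 : n ^ 4 ≤ 2 ^ (4 * n) := by
    calc n ^ 4 ≤ (2 ^ n) ^ 4 := Nat.pow_le_pow_left h1 4
      _ = 2 ^ (4 * n) := by rw [← pow_mul]; congr 1; ring
  have h3 : 360 * n ^ 4 ≤ B ^ (9 + 4 * n) := by
    calc 360 * n ^ 4 ≤ 2 ^ 9 * 2 ^ (4 * n) := Nat.mul_le_mul (by norm_num) h2
      _ = 2 ^ (9 + 4 * n) := (pow_add _ _ _).symm
      _ ≤ B ^ (9 + 4 * n) := Nat.pow_le_pow_left hB _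
  exact_mod_cast h3

/-- the far points -/
theorem fare (n : ℕ) (hn : 4 ≤ n) (B h H : ℕ) (hB : 2 ≤ B) (hh : 2 ≤ h) (hH : 1 ≤ H) (hHh : H ≤ h) (e : ℕ → ℕ → ℤ)
    (hb : ∀ i j, i + j ≤ n → |e i j| ≤ (h : ℤ)) (hir : Ir n e) (T : Finset (ℤ × ℤ))
    (hT : ∀ P ∈ T, (h : ℤ) ^ (2500 * n ^ 4) < max |P.1| |P.2| ∧ |ev n e P.1 P.2| ≤ (H : ℤ)) :
    (T.card : ℝ) ≤ (B : ℝ) ^ (9 + 4 * n) * ((H : ℝ) ^ (2 / (n : ℝ)) * (1 + Real.log H)) := by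
  have hn4 : (4 : ℝ) ≤ n := by exact_mod_cast hn
  have hn0 : (0 : ℝ) < n := by linarith
  have hH1 : (1 : ℝ) ≤ H := by exact_mod_cast hH
  have hlH := Real.log_nonneg hH1
  refine (farx hn hh hH hHh e hb hir T hT).trans ?_
  have h4 : (H : ℝ) ^ (1 / (n : ℝ)) ≤ (H : ℝ) ^ (2 / (n : ℝ)) * (1 + Real.log H) := by
    have h5 : (H : ℝ) ^ (1 / (n : ℝ)) ≤ (H : ℝ) ^ (2 / (n : ℝ)) :=
      Real.rpow_le_rpow_of_exponent_le hH1 (div_le_div_of_nonneg_right (by norm_num) hn0.le)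
    exact h5.trans (le_mul_of_one_le_right (by positivity) (by linarith))
  exact mul_le_mul (e360 n B hB) h4 (by positivity) (by positivity)

/-- heights -/
theorem hte (n B S H : ℕ) (hn : 4 ≤ n) (hB : 2 ≤ B) (hS : 1 ≤ S) (hH : 1 ≤ H) (hHS : H ^ 2 ≤ S ^ n) (e : ℕ → ℕ → ℤ)
    (htop : ∀ a b, a + b = n → |e a b| ≤ (B : ℤ)) (hlow : ∀ a b, a + b < n → |e a b| ≤ ((S : ℤ) ^ (n - (a + b)))) :
    2 ≤ B * S ^ n ∧ H ≤ B * S ^ n ∧ ∀ i j, i + j ≤ n → |e i j| ≤ ((B * S ^ n : ℕ) : ℤ) := by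
  have hSn1 : 1 ≤ S ^ n := Nat.one_le_pow _ _ hS
  have hBh : B ≤ B * S ^ n := Nat.le_mul_of_pos_right _ hSn1
  have hSh : S ^ n ≤ B * S ^ n := Nat.le_mul_of_pos_left _ (by omega)
  refine ⟨hB.trans hBh, ?_, ?_⟩
  · have h1 : H ≤ H ^ 2 := Nat.le_self_pow (by norm_num) H
    exact (h1.trans hHS).trans hSh
  · intro i j hij
    rcases Nat.lt_or_ge (i + j) n with h1 | h1
    · refine (hlow i j h1).trans ?_
      exact_mod_cast (Nat.pow_le_pow_right hS (by omega : n - (i + j) ≤ n)).trans hSh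
    · refine (htop i j (le_antisymm hij h1)).trans ?_
      exact_mod_cast hBh

/-- `H² ≤ S^n`, linear in `S` -/
theorem ptsxe (n : ℕ) (hn : 4 ≤ n) (B : ℕ) (hB : 2 ≤ B) (e : ℕ → ℕ → ℤ) (hir : Ir n e)
    (htop : ∀ a b, a + b = n → |e a b| ≤ (B : ℤ)) (S H : ℕ) (hS : 1 ≤ S) (hH : 1 ≤ H) (hHS : H ^ 2 ≤ S ^ n)
    (hlow : ∀ a b, a + b < n → |e a b| ≤ ((S : ℤ) ^ (n - (a + b)))) (T : Finset (ℤ × ℤ))
    (hT : ∀ P ∈ T, |ev n e P.1 P.2| ≤ (H : ℤ)) :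
    (T.card : ℝ) ≤ (B : ℝ) ^ (51 * n ^ 2 + 2500 * n ^ 4 + 2) * (S + (H : ℝ) ^ (2 / (n : ℝ)) * (1 + Real.log H)) := by
  classical
  obtain ⟨k₁, hk₁⟩ : ∃ k₁ : ℕ, k₁ = 41 * n ^ 2 + 2500 * n ^ 4 := ⟨_, rfl⟩
  have hmed := Pool.Agent.H99.VX.medxe n hn (2500 * n ^ 4)
  have hsm := Pool.Agent.H99.VX.smxe n (by omega)
  rw [← hk₁] at hmed
  obtain ⟨hh2, hHh, hht⟩ := hte n B S H hn hB hS hH hHS e htop hlow
  obtain ⟨h, hh⟩ : ∃ h : ℕ, h = B * S ^ n := ⟨_, rfl⟩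
  rw [← hh] at hh2 hHh hht
  have hn4 : (4 : ℝ) ≤ n := by exact_mod_cast hn
  have hn0 : (0 : ℝ) < n := by linarith
  have hB2 : (2 : ℝ) ≤ B := by exact_mod_cast hB
  have hB1 : (1 : ℝ) ≤ B := by linarith
  have hS1 : (1 : ℝ) ≤ S := by exact_mod_cast hS
  have hH1 : (1 : ℝ) ≤ H := by exact_mod_cast hH
  have hlH := Real.log_nonneg hH1
  have hBk : (1 : ℝ) ≤ (B : ℝ) ^ k₁ := one_le_pow₀ hB1
  have hKS : 1 ≤ (B : ℝ) ^ k₁ * S := by nlinarith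
  obtain ⟨Z, hZ⟩ : ∃ Z : ℝ, Z = (H : ℝ) ^ (2 / (n : ℝ)) * (1 + Real.log H) := ⟨_, rfl⟩
  have hZ0 : 0 ≤ Z := by rw [hZ]; positivity
  set T0 := T.filter fun P => (h : ℤ) ^ (2500 * n ^ 4) < max |P.1| |P.2| with hT0
  set T3 := T.filter fun P => ¬ (h : ℤ) ^ (2500 * n ^ 4) < max |P.1| |P.2| with hT3
  set T1 := T3.filter fun P => (B : ℝ) ^ k₁ * S ≤ (max |P.1| |P.2| : ℤ) with hT1
  set T2 := T3.filter fun P => ¬ (B : ℝ) ^ k₁ * S ≤ (max |P.1| |P.2| : ℤ) with hT2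
  have h0 : (T0.card : ℝ) ≤ (B : ℝ) ^ (9 + 4 * n) * Z := by
    rw [hZ]
    refine fare n hn B h H hB hh2 hH hHh e hht hir T0 ?_
    intro P hP
    rw [hT0, Finset.mem_filter] at hP
    exact ⟨hP.2, hT P hP.1⟩
  have h1 : (T1.card : ℝ) ≤ (B : ℝ) ^ k₁ * S := by
    refine hmed B hB e hir htop S H hS hH hHS hlow T1 ?_
    intro P hP
    rw [hT1, Finset.mem_filter, hT3, Finset.mem_filter] at hP
    refine ⟨hT P hP.1.1, hP.2, ?_⟩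
    have h2 := not_lt.1 hP.1.2
    rw [hh] at h2
    push_cast at h2
    exact h2
  have h2 : (T2.card : ℝ) ≤ (B : ℝ) ^ (10 * n ^ 2) * ((B : ℝ) ^ k₁ * S + Z) := by
    rw [hZ]
    refine hsm B hB e hir (htop 0 n (by omega)) ((B : ℝ) ^ k₁ * S) H hKS hH1 T2 ?_
    intro P hP
    rw [hT2, Finset.mem_filter, hT3, Finset.mem_filter] at hP
    refine ⟨by exact_mod_cast (hT P hP.1.1), ?_⟩
    have h3 := hP.2
    push Not at h3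
    have h5 : (|P.1| : ℤ) ≤ max |P.1| |P.2| := le_max_left _ _
    have h6 : ((|P.1| : ℤ) : ℝ) ≤ ((max |P.1| |P.2| : ℤ) : ℝ) := by exact_mod_cast h5
    push_cast at h6 h3
    linarith
  have h3 : T.card = T0.card + (T1.card + T2.card) := by
    rw [hT1, hT2, Finset.card_filter_add_card_filter_not, hT0, hT3, Finset.card_filter_add_card_filter_not]
  rw [h3, ← hZ]
  push_cast
  obtain ⟨Y, hY⟩ : ∃ Y : ℝ, Y = S + Z := ⟨_, rfl⟩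
  have hY0 : 0 ≤ Y := by rw [hY]; linarith
  have hSY : (S : ℝ) ≤ Y := by rw [hY]; linarith
  have hZY : Z ≤ Y := by rw [hY]; linarith
  rw [← hY]
  obtain ⟨W, hW⟩ : ∃ W : ℝ, W = (B : ℝ) ^ (51 * n ^ 2 + 2500 * n ^ 4) := ⟨_, rfl⟩
  have hW1 : 1 ≤ W := by rw [hW]; exact one_le_pow₀ hB1
  have e0 : (B : ℝ) ^ (9 + 4 * n) * Z ≤ W * Y := by
    refine mul_le_mul ?_ hZY hZ0 (by linarith)
    rw [hW]
    refine pow_le_pow_right₀ hB1 ?_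
    nlinarith
  have e1 : (B : ℝ) ^ k₁ * S ≤ W * Y := by
    refine mul_le_mul ?_ hSY (by linarith) (by linarith)
    rw [hW, hk₁]
    refine pow_le_pow_right₀ hB1 ?_
    omega
  have e2 : (B : ℝ) ^ (10 * n ^ 2) * ((B : ℝ) ^ k₁ * S + Z) ≤ W * Y := by
    have h7 : (B : ℝ) ^ k₁ * S + Z ≤ (B : ℝ) ^ k₁ * Y := by
      rw [hY]
      nlinarith
    calc _ ≤ (B : ℝ) ^ (10 * n ^ 2) * ((B : ℝ) ^ k₁ * Y) := mul_le_mul_of_nonneg_left h7 (by positivity)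
      _ = (B : ℝ) ^ (10 * n ^ 2 + k₁) * Y := by rw [pow_add]; ring
      _ ≤ _ := by
        refine mul_le_mul_of_nonneg_right ?_ hY0
        rw [hW, hk₁]
        exact pow_le_pow_right₀ hB1 (by omega)
  have e3 : 3 * (W * Y) ≤ (B : ℝ) ^ (51 * n ^ 2 + 2500 * n ^ 4 + 2) * Y := by
    rw [pow_add, ← hW]
    have h8 : (4 : ℝ) ≤ (B : ℝ) ^ 2 := by nlinarith
    have h9 : 0 ≤ W * Y := by positivity
    nlinarith
  linarith

/-- the statement of `smye` -/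
def SmyE (n K₀ k : ℕ) : Prop := ∀ B : ℕ, 2 ≤ B → ∀ e : ℕ → ℕ → ℤ, Ir n e →
    (∀ a b, a + b = n → |e a b| ≤ (B : ℤ)) → ∀ (S H : ℕ), 1 ≤ S → 1 ≤ H → H ^ 2 ≤ S ^ n →
    (∀ a b, a + b < n → |e a b| ≤ ((S : ℤ) ^ (n - (a + b)))) → ∀ T : Finset (ℤ × ℤ),
    (∀ P ∈ T, |ev n e P.1 P.2| ≤ (H : ℤ) ∧ |P.2| ≤ |P.1| ∧ |P.1| ≤ (B : ℤ) ^ K₀ * S) →
    (T.card : ℝ) ≤ (B : ℝ) ^ k * ((S : ℝ) ^ (1 - 1 / (36 * (n : ℝ) ^ 2)) + (H : ℝ) ^ (2 / (n : ℝ)) * (1 + Real.log H))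

/-- `H² ≤ S^n`, power of `S` -/
theorem ptsye (n : ℕ) (hn : 4 ≤ n) (k₂ : ℕ) (hk₂ : k₂ ≤ 941 * n ^ 2 + 2500 * n ^ 4)
    (hsm : SmyE n (41 * n ^ 2 + 2500 * n ^ 4) k₂) (B : ℕ) (hB : 2 ≤ B) (e : ℕ → ℕ → ℤ) (hir : Ir n e)
    (htop : ∀ a b, a + b = n → |e a b| ≤ (B : ℤ)) (S H : ℕ) (hS : 1 ≤ S) (hH : 1 ≤ H) (hHS : H ^ 2 ≤ S ^ n)
    (hlow : ∀ a b, a + b < n → |e a b| ≤ ((S : ℤ) ^ (n - (a + b)))) (T : Finset (ℤ × ℤ))
    (hT : ∀ P ∈ T, |ev n e P.1 P.2| ≤ (H : ℤ)) :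
    (T.card : ℝ) ≤ (B : ℝ) ^ (941 * n ^ 2 + 2500 * n ^ 4 + 2) *
      ((S : ℝ) ^ (1 - 1 / (36 * (n : ℝ) ^ 2)) + (H : ℝ) ^ (2 / (n : ℝ)) * (1 + Real.log H)) := by
  classical
  obtain ⟨k₁, hk₁⟩ : ∃ k₁ : ℕ, k₁ = 41 * n ^ 2 + 2500 * n ^ 4 := ⟨_, rfl⟩
  have hmed := Pool.Agent.H99.VY.medye n hn (2500 * n ^ 4)
  rw [← hk₁] at hmed hsm
  obtain ⟨hh2, hHh, hht⟩ := hte n B S H hn hB hS hH hHS e htop hlow
  obtain ⟨h, hh⟩ : ∃ h : ℕ, h = B * S ^ n := ⟨_, rfl⟩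
  rw [← hh] at hh2 hHh hht
  have hn4 : (4 : ℝ) ≤ n := by exact_mod_cast hn
  have hn0 : (0 : ℝ) < n := by linarith
  have hB2 : (2 : ℝ) ≤ B := by exact_mod_cast hB
  have hB1 : (1 : ℝ) ≤ B := by linarith
  have hS1 : (1 : ℝ) ≤ S := by exact_mod_cast hS
  have hH1 : (1 : ℝ) ≤ H := by exact_mod_cast hH
  have hlH := Real.log_nonneg hH1
  obtain ⟨Z, hZ⟩ : ∃ Z : ℝ, Z = (H : ℝ) ^ (2 / (n : ℝ)) * (1 + Real.log H) := ⟨_, rfl⟩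
  have hZ0 : 0 ≤ Z := by rw [hZ]; positivity
  obtain ⟨s, hs⟩ : ∃ s : ℝ, s = (S : ℝ) ^ (1 - 1 / (36 * (n : ℝ) ^ 2)) := ⟨_, rfl⟩
  have hs0 : 0 ≤ s := by rw [hs]; positivity
  set T0 := T.filter fun P => (h : ℤ) ^ (2500 * n ^ 4) < max |P.1| |P.2| with hT0
  set T3 := T.filter fun P => ¬ (h : ℤ) ^ (2500 * n ^ 4) < max |P.1| |P.2| with hT3
  set T1 := T3.filter fun P => (B : ℝ) ^ k₁ * S ≤ (max |P.1| |P.2| : ℤ) with hT1
  set T2 := T3.filter fun P => ¬ (B : ℝ) ^ k₁ * S ≤ (max |P.1| |P.2| : ℤ) with hT2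
  set T4 := T2.filter fun P => |P.2| ≤ |P.1| with hT4
  set T5 := T2.filter fun P => ¬ |P.2| ≤ |P.1| with hT5
  have h0 : (T0.card : ℝ) ≤ (B : ℝ) ^ (9 + 4 * n) * Z := by
    rw [hZ]
    refine fare n hn B h H hB hh2 hH hHh e hht hir T0 ?_
    intro P hP
    rw [hT0, Finset.mem_filter] at hP
    exact ⟨hP.2, hT P hP.1⟩
  have h1 : (T1.card : ℝ) ≤ (B : ℝ) ^ k₁ * s := by
    rw [hs]
    refine hmed B hB e hir htop S H hS hH hHS hlow T1 ?_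
    intro P hP
    rw [hT1, Finset.mem_filter, hT3, Finset.mem_filter] at hP
    refine ⟨hT P hP.1.1, hP.2, ?_⟩
    have h2 := not_lt.1 hP.1.2
    rw [hh] at h2
    push_cast at h2
    exact h2
  have hbox : ∀ P ∈ T2, |ev n e P.1 P.2| ≤ (H : ℤ) ∧ |P.1| ≤ (B : ℤ) ^ k₁ * S ∧ |P.2| ≤ (B : ℤ) ^ k₁ * S := by
    intro P hP
    rw [hT2, Finset.mem_filter, hT3, Finset.mem_filter] at hP
    have h3 := hP.2
    push Not at h3
    have h4 : ((max |P.1| |P.2| : ℤ) : ℝ) < (((B : ℤ) ^ k₁ * S : ℤ) : ℝ) := by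
      push_cast
      push_cast at h3
      exact h3
    have h5 : max |P.1| |P.2| < (B : ℤ) ^ k₁ * S := by exact_mod_cast h4
    exact ⟨hT P hP.1.1, ((le_max_left _ _).trans h5.le), ((le_max_right _ _).trans h5.le)⟩
  have h4 : (T4.card : ℝ) ≤ (B : ℝ) ^ k₂ * (s + Z) := by
    rw [hs, hZ]
    refine hsm B hB e hir htop S H hS hH hHS hlow T4 ?_
    intro P hP
    rw [hT4, Finset.mem_filter] at hP
    obtain ⟨q1, q2, q3⟩ := hbox P hP.1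
    exact ⟨q1, hP.2, q2⟩
  have h5 : (T5.card : ℝ) ≤ (B : ℝ) ^ k₂ * (s + Z) := by
    rw [hs, hZ, ← Finset.card_image_of_injective T5 Prod.swap_injective]
    refine hsm B hB (sw e) (ir_sw n (by omega) e hir) (fun a b hab => htop b a (by omega)) S H hS hH hHS
      (fun a b hab => by
        have := hlow b a (by omega)
        rwa [add_comm b a] at this) (T5.image Prod.swap) ?_
    intro Q hQ
    obtain ⟨P, hP, rfl⟩ := Finset.mem_image.1 hQ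
    rw [hT5, Finset.mem_filter] at hP
    obtain ⟨q1, q2, q3⟩ := hbox P hP.1
    refine ⟨?_, ?_, q3⟩
    · show |ev n (sw e) P.2 P.1| ≤ (H : ℤ)
      rw [ev_sw]
      exact q1
    · show |P.1| ≤ |P.2|
      exact (not_le.1 hP.2).le
  have h3 : T.card = T0.card + (T1.card + (T4.card + T5.card)) := by
    rw [hT4, hT5, Finset.card_filter_add_card_filter_not, hT1, hT2, Finset.card_filter_add_card_filter_not, hT0, hT3,
      Finset.card_filter_add_card_filter_not]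
  rw [h3, ← hZ, ← hs]
  push_cast
  obtain ⟨Y, hY⟩ : ∃ Y : ℝ, Y = s + Z := ⟨_, rfl⟩
  have hY0 : 0 ≤ Y := by rw [hY]; linarith
  have hSY : s ≤ Y := by rw [hY]; linarith
  have hZY : Z ≤ Y := by rw [hY]; linarith
  rw [← hY] at h4 h5 ⊢
  obtain ⟨W, hW⟩ : ∃ W : ℝ, W = (B : ℝ) ^ (941 * n ^ 2 + 2500 * n ^ 4) := ⟨_, rfl⟩
  have hW1 : 1 ≤ W := by rw [hW]; exact one_le_pow₀ hB1
  have e0 : (B : ℝ) ^ (9 + 4 * n) * Z ≤ W * Y := by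
    refine mul_le_mul ?_ hZY hZ0 (by linarith)
    rw [hW]
    refine pow_le_pow_right₀ hB1 ?_
    nlinarith
  have e1 : (B : ℝ) ^ k₁ * s ≤ W * Y := by
    refine mul_le_mul ?_ hSY hs0 (by linarith)
    rw [hW, hk₁]
    refine pow_le_pow_right₀ hB1 ?_
    omega
  have e2 : (B : ℝ) ^ k₂ * Y ≤ W * Y := by
    refine mul_le_mul_of_nonneg_right ?_ hY0
    rw [hW]
    exact pow_le_pow_right₀ hB1 hk₂
  have e3 : 4 * (W * Y) ≤ (B : ℝ) ^ (941 * n ^ 2 + 2500 * n ^ 4 + 2) * Y := by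
    rw [pow_add _ (941 * n ^ 2 + 2500 * n ^ 4), ← hW]
    have h8 : (4 : ℝ) ≤ (B : ℝ) ^ 2 := by nlinarith
    have h9 : 0 ≤ W * Y := by positivity
    nlinarith
  linarith

/-- THEOREM VZ -/
theorem mainz (n : ℕ) (hn : 4 ≤ n) (k₂ : ℕ) (hk₂ : k₂ ≤ 941 * n ^ 2 + 2500 * n ^ 4)
    (hsm : SmyE n (41 * n ^ 2 + 2500 * n ^ 4) k₂) (B S H : ℕ) (hB : 2 ≤ B) (hS : 1 ≤ S) (hH : 1 ≤ H)
    (F : MvPolynomial (Fin 2) ℤ) (hF : F.totalDegree ≤ n)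
    (hirr : Irreducible (map (Int.castRingHom ℚ) (homogeneousComponent n F)))
    (hFB : ∀ m : Fin 2 →₀ ℕ, m.degree = n → |F.coeff m| ≤ (B : ℤ))
    (hFb : ∀ m : Fin 2 →₀ ℕ, m.degree < n → |F.coeff m| ≤ (S : ℤ) ^ (n - m.degree)) :
    {P : Fin 2 → ℤ | |eval P F| ≤ (H : ℤ)}.Finite ∧
    (({P : Fin 2 → ℤ | |eval P F| ≤ (H : ℤ)}.ncard : ℕ) : ℝ) ≤
      (B : ℝ) ^ (3000 * n ^ 4) * ((S : ℝ) ^ (1 - 1 / (36 * (n : ℝ) ^ 2)) + (H : ℝ) ^ (2 / (n : ℝ)) * (1 + Real.log H)) := by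
  classical
  obtain ⟨hq1, hq2⟩ := sixteen n hn
  have hn4 : (4 : ℝ) ≤ n := by exact_mod_cast hn
  have hn0 : (0 : ℝ) < n := by linarith
  have hB2 : (2 : ℝ) ≤ B := by exact_mod_cast hB
  have hB1 : (1 : ℝ) ≤ B := by linarith
  have hH1 : (1 : ℝ) ≤ H := by exact_mod_cast hH
  have hlH := Real.log_nonneg hH1
  have hS0 : (0 : ℝ) ≤ S := Nat.cast_nonneg S
  obtain ⟨Z, hZ⟩ : ∃ Z : ℝ, Z = (H : ℝ) ^ (2 / (n : ℝ)) * (1 + Real.log H) := ⟨_, rfl⟩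
  have hZ0 : 0 ≤ Z := by rw [hZ]; positivity
  obtain ⟨s, hs⟩ : ∃ s : ℝ, s = (S : ℝ) ^ (1 - 1 / (36 * (n : ℝ) ^ 2)) := ⟨_, rfl⟩
  have hs0 : 0 ≤ s := by rw [hs]; positivity
  have hir := ir_ar (by omega) hirr
  have htop : ∀ a b, a + b = n → |ar F a b| ≤ (B : ℤ) := fun a b hab => hFB _ (by rw [deg_ab]; exact hab)
  have hlow : ∀ a b, a + b < n → |ar F a b| ≤ ((S : ℤ) ^ (n - (a + b))) := by
    intro a b hab
    have h2 := hFb (Finsupp.single 0 a + Finsupp.single 1 b) (by rw [deg_ab]; exact hab)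
    rwa [deg_ab] at h2
  rw [← hZ, ← hs]
  have hbound : ∀ T : Finset (ℤ × ℤ), (∀ P ∈ T, |ev n (ar F) P.1 P.2| ≤ (H : ℤ)) →
      (T.card : ℝ) ≤ (B : ℝ) ^ (3000 * n ^ 4) * (s + Z) := by
    intro T hT
    by_cases hHS : H ^ 2 ≤ S ^ n
    · have h1 := ptsye n hn k₂ hk₂ hsm B hB (ar F) hir htop S H hS hH hHS hlow T hT
      rw [← hZ, ← hs] at h1
      refine h1.trans (mul_le_mul_of_nonneg_right (pow_le_pow_right₀ hB1 ?_) (by linarith))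
      rw [hq1]
      nlinarith
    · obtain ⟨S', hSS', hHS2, _, h1⟩ := numx n hn S H hS hH
      have hlow' : ∀ a b, a + b < n → |ar F a b| ≤ ((S' : ℤ) ^ (n - (a + b))) := by
        intro a b hab
        refine (hlow a b hab).trans ?_
        exact_mod_cast Nat.pow_le_pow_left hSS' _
      have h2 := ptsxe n hn B hB (ar F) hir htop S' H (hS.trans hSS') hH hHS2 hlow' T hT
      rw [← hZ] at h2
      obtain ⟨b, hb⟩ : ∃ b : ℝ, b = (H : ℝ) ^ (2 / (n : ℝ)) := ⟨_, rfl⟩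
      have hb1 : 1 ≤ b := by rw [hb]; exact Real.one_le_rpow hH1 (by positivity)
      have hbZ : b ≤ Z := by
        rw [hZ, ← hb]
        exact le_mul_of_one_le_right (by linarith) (by linarith)
      have hSb : (S : ℝ) ≤ b := by
        have h3 : S ^ n ≤ H ^ 2 := by omega
        have h4 : (S : ℝ) ^ n ≤ (H : ℝ) ^ 2 := by exact_mod_cast h3
        have h6 : (S : ℝ) = ((S : ℝ) ^ n) ^ (1 / (n : ℝ)) := by
          rw [← Real.rpow_natCast, ← Real.rpow_mul hS0, mul_one_div_cancel hn0.ne', Real.rpow_one]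
        rw [h6, hb]
        refine (Real.rpow_le_rpow (by positivity) h4 (by positivity)).trans (le_of_eq ?_)
        rw [← Real.rpow_natCast, ← Real.rpow_mul (by linarith)]
        congr 1
        push_cast
        ring
      rw [← hb] at h1
      have h5 : (S' : ℝ) + Z ≤ 4 * (s + Z) := by linarith
      have h7 : (4 : ℝ) ≤ (B : ℝ) ^ 2 := by nlinarith
      calc (T.card : ℝ) ≤ (B : ℝ) ^ (51 * n ^ 2 + 2500 * n ^ 4 + 2) * (S' + Z) := h2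
        _ ≤ (B : ℝ) ^ (51 * n ^ 2 + 2500 * n ^ 4 + 2) * ((B : ℝ) ^ 2 * (s + Z)) := by
            refine mul_le_mul_of_nonneg_left (h5.trans ?_) (by positivity)
            exact mul_le_mul_of_nonneg_right h7 (by linarith)
        _ = (B : ℝ) ^ (51 * n ^ 2 + 2500 * n ^ 4 + 2 + 2) * (s + Z) := by rw [pow_add _ _ 2]; ring
        _ ≤ _ := by
            refine mul_le_mul_of_nonneg_right (pow_le_pow_right₀ hB1 ?_) (by linarith)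
            rw [hq1]
            nlinarith
  have hinj : Function.Injective (fun P : Fin 2 → ℤ => (P 0, P 1)) := by
    intro P Q hPQ
    simp only [Prod.mk.injEq] at hPQ
    funext i
    fin_cases i
    · exact hPQ.1
    · exact hPQ.2
  have hfb : ∀ T : Finset (Fin 2 → ℤ), (∀ P ∈ T, |eval P F| ≤ (H : ℤ)) →
      (T.card : ℝ) ≤ (B : ℝ) ^ (3000 * n ^ 4) * (s + Z) := by
    intro T hT
    rw [← Finset.card_image_of_injective T hinj]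
    refine hbound _ ?_
    intro Q hQ
    obtain ⟨P, hP, rfl⟩ := Finset.mem_image.1 hQ
    show |ev n (ar F) (P 0) (P 1)| ≤ (H : ℤ)
    rw [ev_ar hF]
    exact hT P hP
  have hfin : {P : Fin 2 → ℤ | |eval P F| ≤ (H : ℤ)}.Finite := by
    by_contra hinf
    obtain ⟨N, hN⟩ := exists_nat_gt ((B : ℝ) ^ (3000 * n ^ 4) * (s + Z))
    obtain ⟨T, hTs, hTc⟩ := Set.Infinite.exists_subset_card_eq hinf N
    have h9 := hfb T (fun P hP => hTs hP)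
    rw [hTc] at h9
    linarith
  refine ⟨hfin, ?_⟩
  rw [Set.ncard_eq_toFinset_card _ hfin]
  exact hfb _ (fun P hP => by simpa using (Set.Finite.mem_toFinset hfin).1 hP)

end Pool.Agent.H8.VZ
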